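import Mathlib

set_option autoImplicit false

/-!
# Definitions for MP_2059f1_ag (rationally elliptic varieties and Hodge-Tate type)

Affine varieties are closed algebraic subsets of `ι → ℂ` with the Euclidean topology; quotient
varieties `S / G` are quotients of affine varieties by finite groups of regular automorphisms.
-/

namespace Pool.Agent.D0H90.HT

open MvPolynomial

/-- A complex affine variety: a closed algebraic subset of the affine space `ι → ℂ`. -/
structure AffVar where
  /-- the index set of the coordinates -/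
  ι : Type
  /-- the set of points -/
  carrier : Set (ι → ℂ)
  finite : Finite ι
  algebraic : ∃ I : Set (MvPolynomial ι ℂ), carrier = {z | ∀ f ∈ I, eval z f = 0}

/-- The points of an affine variety, with the Euclidean topology (as a subspace of `ι → ℂ`). -/
abbrev AffVar.Pts (S : AffVar) : Type := S.carrier

/-- Regular maps: given by polynomials in the coordinates. -/
def IsRegular (S T : AffVar) (f : S.Pts → T.Pts) : Prop :=
  ∃ F : T.ι → MvPolynomial S.ι ℂ, ∀ (z : S.Pts) (i : T.ι), (f z).1 i = eval z.1 (F i)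

/-- The product of two affine varieties. -/
abbrev AffVar.prod (S T : AffVar) : AffVar where
  ι := S.ι ⊕ T.ι
  carrier := {z | (fun i => z (Sum.inl i)) ∈ S.carrier ∧ (fun j => z (Sum.inr j)) ∈ T.carrier}
  finite := by
    have := S.finite
    have := T.finite
    infer_instance
  algebraic := by
    obtain ⟨I, hI⟩ := S.algebraic
    obtain ⟨J, hJ⟩ := T.algebraic
    refine ⟨rename Sum.inl '' I ∪ rename Sum.inr '' J, ?_⟩
    ext z
    rw [hI, hJ]
    constructor
    · rintro ⟨h1, h2⟩ f (⟨g, hg, rfl⟩ | ⟨g, hg, rfl⟩)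
      · rw [eval_rename]; exact h1 g hg
      · rw [eval_rename]; exact h2 g hg
    · intro h
      refine ⟨fun g hg => ?_, fun g hg => ?_⟩
      · have := h _ (Or.inl ⟨g, hg, rfl⟩)
        rwa [eval_rename] at this
      · have := h _ (Or.inr ⟨g, hg, rfl⟩)
        rwa [eval_rename] at this

/-- The first projection. -/
def fst (S T : AffVar) (z : (S.prod T).Pts) : S.Pts := ⟨fun i => z.1 (Sum.inl i), z.2.1⟩

/-- The second projection. -/
def snd (S T : AffVar) (z : (S.prod T).Pts) : T.Pts := ⟨fun i => z.1 (Sum.inr i), z.2.2⟩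

/-- The point of the product with given components. -/
def pair (S T : AffVar) (a : S.Pts) (b : T.Pts) : (S.prod T).Pts := ⟨Sum.elim a.1 b.1, a.2, b.2⟩

theorem fst_regular (S T : AffVar) : IsRegular (S.prod T) S (fst S T) :=
  ⟨fun i => X (Sum.inl i), fun z i => by simp [fst]⟩

theorem snd_regular (S T : AffVar) : IsRegular (S.prod T) T (snd S T) :=
  ⟨fun i => X (Sum.inr i), fun z i => by simp [snd]⟩

/-- The affine cubic curve `y² = x³ + α x + β`. -/
abbrev curve (α β : ℂ) : AffVar where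
  ι := Fin 2
  carrier := {z | z 1 ^ 2 = z 0 ^ 3 + α * z 0 + β}
  finite := inferInstance
  algebraic := by
    refine ⟨{X 1 ^ 2 - (X 0 ^ 3 + C α * X 0 + C β)}, ?_⟩
    ext z
    simp [sub_eq_zero]

/-- The involution `(x, y) ↦ (x, - y)` of the cubic curve. -/
def inv (α β : ℂ) (z : (curve α β).Pts) : (curve α β).Pts :=
  ⟨(![z.1 (0 : Fin 2), - z.1 (1 : Fin 2)] : Fin 2 → ℂ), by
    have h : z.1 (1 : Fin 2) ^ 2 = z.1 (0 : Fin 2) ^ 3 + α * z.1 (0 : Fin 2) + β := z.2
    show (- z.1 (1 : Fin 2)) ^ 2 = z.1 (0 : Fin 2) ^ 3 + α * z.1 (0 : Fin 2) + β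
    rw [neg_sq, h]⟩

theorem inv_regular (α β : ℂ) : IsRegular (curve α β) (curve α β) (inv α β) := by
  refine ⟨(![X (0 : Fin 2), - X (1 : Fin 2)] : Fin 2 → MvPolynomial (Fin 2) ℂ), fun z i => ?_⟩
  change Fin 2 at i
  obtain rfl | rfl : i = 0 ∨ i = 1 := by omega
  · show z.1 (0 : Fin 2) = eval z.1 (X (0 : Fin 2) : MvPolynomial (Fin 2) ℂ)
    rw [eval_X]
  · show - z.1 (1 : Fin 2) = eval z.1 (- X (1 : Fin 2) : MvPolynomial (Fin 2) ℂ)
    rw [map_neg]
    exact congrArg Neg.neg (eval_X (R := ℂ) (1 : Fin 2)).symm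

/-- The affine quadric surface `a² + b² + c² = 1`. -/
abbrev quadric : AffVar where
  ι := Fin 3
  carrier := {z | z 0 ^ 2 + z 1 ^ 2 + z 2 ^ 2 = 1}
  finite := inferInstance
  algebraic := by
    refine ⟨{X 0 ^ 2 + X 1 ^ 2 + X 2 ^ 2 - 1}, ?_⟩
    ext z
    simp [sub_eq_zero]

/-- The reflection `(a, b, c) ↦ (- a, b, c)` of the quadric surface. -/
def refl (z : quadric.Pts) : quadric.Pts :=
  ⟨(![- z.1 (0 : Fin 3), z.1 (1 : Fin 3), z.1 (2 : Fin 3)] : Fin 3 → ℂ), by
    have h : z.1 (0 : Fin 3) ^ 2 + z.1 (1 : Fin 3) ^ 2 + z.1 (2 : Fin 3) ^ 2 = 1 := z.2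
    show (- z.1 (0 : Fin 3)) ^ 2 + z.1 (1 : Fin 3) ^ 2 + z.1 (2 : Fin 3) ^ 2 = 1
    rw [neg_sq, h]⟩

theorem refl_regular : IsRegular quadric quadric refl := by
  refine ⟨(![- X (0 : Fin 3), X (1 : Fin 3), X (2 : Fin 3)] : Fin 3 → MvPolynomial (Fin 3) ℂ),
    fun z i => ?_⟩
  change Fin 3 at i
  obtain rfl | rfl | rfl : i = 0 ∨ i = 1 ∨ i = 2 := by omega
  · show - z.1 (0 : Fin 3) = eval z.1 (- X (0 : Fin 3) : MvPolynomial (Fin 3) ℂ)
    rw [map_neg]
    exact congrArg Neg.neg (eval_X (R := ℂ) (0 : Fin 3)).symm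
  · show z.1 (1 : Fin 3) = eval z.1 (X (1 : Fin 3) : MvPolynomial (Fin 3) ℂ)
    rw [eval_X]
  · show z.1 (2 : Fin 3) = eval z.1 (X (2 : Fin 3) : MvPolynomial (Fin 3) ℂ)
    rw [eval_X]

/-- The properties of Deligne's mixed Hodge structures on the cohomology algebras
`H S = H^*(S; ℂ)` of complex affine varieties which are used here. `piece S (k, p, q)` is the
subspace `I^{p,q}` of `H^k(S; ℂ)` in Deligne's functorial splitting, of dimension
`h^{k,p,q}(S) = dim Gr_F^p Gr^W_{p+q} H^k(S; ℂ)`. -/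
structure MixedHodgeTheory where
  /-- the cohomology algebra with complex coefficients -/
  H : AffVar → Type
  [ring : ∀ S, Ring (H S)]
  [algebra : ∀ S, Algebra ℂ (H S)]
  [finite : ∀ S, Module.Finite ℂ (H S)]
  /-- the pieces of Deligne's splitting -/
  piece : ∀ S, ℕ × ℕ × ℕ → Submodule ℂ (H S)
  internal : ∀ S, DirectSum.IsInternal (piece S)
  one_mem : ∀ S, (1 : H S) ∈ piece S 0
  mul_mem : ∀ S a b (x y : H S), x ∈ piece S a → y ∈ piece S b → x * y ∈ piece S (a + b)
  /-- the cup product is graded commutative -/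
  comm : ∀ S a b (x y : H S), x ∈ piece S a → y ∈ piece S b →
    x * y = (-1 : ℂ) ^ (a.1 * b.1) • (y * x)
  /-- the pullback under regular maps -/
  pull : ∀ S T (f : S.Pts → T.Pts), IsRegular S T f → (H T →ₐ[ℂ] H S)
  pull_id : ∀ S (h : IsRegular S S id) (x : H S), pull S S id h x = x
  pull_comp : ∀ S T U (f : S.Pts → T.Pts) (g : T.Pts → U.Pts) (hf : IsRegular S T f)
    (hg : IsRegular T U g) (h : IsRegular S U (g ∘ f)) (x : H U),
    pull S U (g ∘ f) h x = pull S T f hf (pull T U g hg x)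
  pull_mem : ∀ S T (f : S.Pts → T.Pts) (hf : IsRegular S T f) a (x : H T), x ∈ piece T a →
    pull S T f hf x ∈ piece S a
  /-- the Künneth formula: `x ⊗ y ↦ pr₁^* x ∪ pr₂^* y` is bijective -/
  kunneth : ∀ S T, Function.Bijective (TensorProduct.lift ((LinearMap.mul ℂ (H (S.prod T))).compl₁₂
    (pull (S.prod T) S (fst S T) (fst_regular S T)).toLinearMap
    (pull (S.prod T) T (snd S T) (snd_regular S T)).toLinearMap))
  /-- the affine elliptic curve: `H^0 = ℂ`, `H^1` has the types `(1,0)` and `(0,1)`, and the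
  involution `(x, y) ↦ (x, - y)` acts on `H^1` by `-1` -/
  elliptic : ∀ α β : ℂ, 4 * α ^ 3 + 27 * β ^ 2 ≠ 0 →
    (∀ a, Module.finrank ℂ (piece (curve α β) a) =
      if a = (0, 0, 0) ∨ a = (1, 1, 0) ∨ a = (1, 0, 1) then 1 else 0) ∧
    ∀ p q (x : H (curve α β)), x ∈ piece (curve α β) (1, p, q) →
      pull (curve α β) (curve α β) (inv α β) (inv_regular α β) x = - x
  /-- the affine quadric surface (homotopy equivalent to a sphere): `H^0 = ℂ`, `H^2 = ℂ` has the
  type `(1,1)` and the reflection acts on it by `-1` -/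
  sphere : (∀ a, Module.finrank ℂ (piece quadric a) =
      if a = (0, 0, 0) ∨ a = (2, 1, 1) then 1 else 0) ∧
    ∀ x : H quadric, x ∈ piece quadric (2, 1, 1) →
      pull quadric quadric refl refl_regular x = - x

attribute [instance] MixedHodgeTheory.ring MixedHodgeTheory.algebra MixedHodgeTheory.finite

/-- A quotient variety `S / G` of an affine variety by a finite group of regular automorphisms;
it is again an affine variety. -/
structure QuotVar where
  S : AffVar
  G : Subgroup (Equiv.Perm S.Pts)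
  finite : Finite G
  regular : ∀ g ∈ G, IsRegular S S g

/-- The topological space of the points of `S / G`, the orbit space. -/
def QuotVar.Points (V : QuotVar) : Type := Quotient (MulAction.orbitRel V.G V.S.Pts)

instance (V : QuotVar) : TopologicalSpace V.Points :=
  inferInstanceAs (TopologicalSpace (Quotient (MulAction.orbitRel V.G V.S.Pts)))

/-- The cohomology algebra of `S / G`, the algebra of invariants `H^*(S; ℂ)^G`. -/
def coh (𝓗 : MixedHodgeTheory) (V : QuotVar) : Subalgebra ℂ (𝓗.H V.S) where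
  carrier := {x | ∀ g (hg : g ∈ V.G), 𝓗.pull V.S V.S g (V.regular g hg) x = x}
  mul_mem' := by
    intro x y hx hy g hg
    rw [map_mul, hx g hg, hy g hg]
  add_mem' := by
    intro x y hx hy g hg
    rw [map_add, hx g hg, hy g hg]
  algebraMap_mem' := by
    intro c g hg
    rw [AlgHom.commutes]

/-- The mixed Hodge number `h^{k,p,q}` of `S / G`. -/
noncomputable def hodgeNumber (𝓗 : MixedHodgeTheory) (V : QuotVar) (k p q : ℕ) : ℕ :=
  Module.finrank ℂ ↥(𝓗.piece V.S (k, p, q) ⊓ Subalgebra.toSubmodule (coh 𝓗 V))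

/-- A commutative differential graded algebra over `ℂ`. -/
structure Cdga where
  A : Type
  [ring : Ring A]
  [algebra : Algebra ℂ A]
  gr : ℕ → Submodule ℂ A
  internal : DirectSum.IsInternal gr
  one_mem : (1 : A) ∈ gr 0
  mul_mem : ∀ m n (x y : A), x ∈ gr m → y ∈ gr n → x * y ∈ gr (m + n)
  comm : ∀ m n (x y : A), x ∈ gr m → y ∈ gr n → x * y = (-1 : ℂ) ^ (m * n) • (y * x)
  d : A →ₗ[ℂ] A
  d_mem : ∀ n (x : A), x ∈ gr n → d x ∈ gr (n + 1)
  d_d : ∀ x, d (d x) = 0
  leibniz : ∀ n (x y : A), x ∈ gr n → d (x * y) = d x * y + (-1 : ℂ) ^ n • (x * d y)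

attribute [instance] Cdga.ring Cdga.algebra

/-- The cohomology algebra of the differential graded algebra `A` is `H^*(S / G; ℂ)`: there is a
graded algebra homomorphism from the cocycles onto the cohomology algebra of `S / G` whose kernel
consists of the coboundaries. The algebra `A_PL(S / G) ⊗ ℂ` of Sullivan is an example. -/
def HasCohomology (A : Cdga) (𝓗 : MixedHodgeTheory) (V : QuotVar) : Prop :=
  ∃ ρ : LinearMap.ker A.d →ₗ[ℂ] 𝓗.H V.S,
    LinearMap.range ρ = Subalgebra.toSubmodule (coh 𝓗 V) ∧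
    (∀ z : LinearMap.ker A.d, ρ z = 0 ↔ ∃ y, A.d y = z.1) ∧
    (∀ k (z : LinearMap.ker A.d), z.1 ∈ A.gr k → ρ z ∈ ⨆ a : ℕ × ℕ, 𝓗.piece V.S (k, a)) ∧
    (∀ z : LinearMap.ker A.d, z.1 = 1 → ρ z = 1) ∧
    ∀ x y z : LinearMap.ker A.d, z.1 = x.1 * y.1 → ρ z = ρ x * ρ y

/-- `(Λ(ℂ^r), 0)`, the free graded commutative algebra on `r` generators of the odd degree `n` with
zero differential, is a (minimal Sullivan) model of `A`: there is a quasi-isomorphism to `A`. -/
def IsModel (A : Cdga) (n r : ℕ) : Prop :=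
  ∃ φ : ExteriorAlgebra ℂ (Fin r → ℂ) →ₐ[ℂ] A.A,
    (∀ v, φ (ExteriorAlgebra.ι ℂ v) ∈ A.gr n) ∧ (∀ x, A.d (φ x) = 0) ∧
    (∀ x, (∃ y, A.d y = φ x) → x = 0) ∧ ∀ z, A.d z = 0 → ∃ x y, z = φ x + A.d y

/-- The product of the curve and the quadric surface. -/
abbrev P (α β : ℂ) : AffVar := (curve α β).prod quadric

/-- The involution `(z, w) ↦ (inv z, refl w)`; the quotient `P / σ` is the hypersurface
`w² = (x³ + α x + β) (1 - b² - c²)` with `w = y a`. -/
def σ (α β : ℂ) (z : (P α β).Pts) : (P α β).Pts :=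
  pair _ _ (inv α β (fst _ _ z)) (refl (snd _ _ z))

/-- The product of two copies of `P`. -/
abbrev Z (α β : ℂ) : AffVar := (P α β).prod (P α β)

theorem inv_inv (α β : ℂ) (z : (curve α β).Pts) : inv α β (inv α β z) = z := by
  apply Subtype.ext
  funext i
  change Fin 2 at i
  obtain rfl | rfl : i = 0 ∨ i = 1 := by omega
  · rfl
  · exact neg_neg (z.1 (1 : Fin 2))

theorem refl_refl (z : quadric.Pts) : refl (refl z) = z := by
  apply Subtype.ext
  funext i
  change Fin 3 at i
  obtain rfl | rfl | rfl : i = 0 ∨ i = 1 ∨ i = 2 := by omega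
  · exact neg_neg (z.1 (0 : Fin 3))
  · rfl
  · rfl

theorem σσ (α β : ℂ) (z : (P α β).Pts) : σ α β (σ α β z) = z := by
  apply Subtype.ext
  funext i
  rcases i with i | i
  · exact congrFun (congrArg Subtype.val (inv_inv α β (fst _ _ z))) i
  · exact congrFun (congrArg Subtype.val (refl_refl (snd _ _ z))) i

/-- `σ` on the first factor. -/
def σ₁ (α β : ℂ) : Equiv.Perm (Z α β).Pts :=
  Function.Involutive.toPerm (fun z => pair _ _ (σ α β (fst _ _ z)) (snd _ _ z)) (fun z => by
    apply Subtype.ext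
    funext i
    rcases i with i | i
    · exact congrFun (congrArg Subtype.val (σσ α β (fst _ _ z))) i
    · rfl)

/-- `σ` on the second factor. -/
def σ₂ (α β : ℂ) : Equiv.Perm (Z α β).Pts :=
  Function.Involutive.toPerm (fun z => pair _ _ (fst _ _ z) (σ α β (snd _ _ z))) (fun z => by
    apply Subtype.ext
    funext i
    rcases i with i | i
    · rfl
    · exact congrFun (congrArg Subtype.val (σσ α β (snd _ _ z))) i)

/-- The exchange of the two factors. -/
def τ (α β : ℂ) : Equiv.Perm (Z α β).Pts :=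
  Function.Involutive.toPerm (fun z => pair _ _ (snd _ _ z) (fst _ _ z)) (fun z => by
    apply Subtype.ext
    funext i
    rcases i with i | i <;> rfl)

end Pool.Agent.D0H90.HT
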