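import Pool.Agent.D0H90.HT.Defs

set_option autoImplicit false

/-!
# The quotient variety `X = (P × P) / G`, the symmetric square of `P / σ`
-/

namespace Pool.Agent.D0H90.HT

open MvPolynomial

theorem IsRegular.comp {S T U : AffVar} {f : S.Pts → T.Pts} {g : T.Pts → U.Pts}
    (hg : IsRegular T U g) (hf : IsRegular S T f) : IsRegular S U (g ∘ f) := by
  obtain ⟨F, hF⟩ := hf
  obtain ⟨G, hG⟩ := hg
  refine ⟨fun i => bind₁ F (G i), fun z i => ?_⟩
  have h := eval₂Hom_bind₁ (RingHom.id ℂ) z.1 F (G i)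
  have e : (f z).1 = fun j => eval z.1 (F j) := funext (hF z)
  rw [Function.comp_apply, hG, e]
  exact h.symm

theorem IsRegular.id (S : AffVar) : IsRegular S S _root_.id :=
  ⟨fun i => MvPolynomial.X i, fun z i => by simp⟩

theorem IsRegular.pair {R S T : AffVar} {f : R.Pts → S.Pts} {g : R.Pts → T.Pts}
    (hf : IsRegular R S f) (hg : IsRegular R T g) :
    IsRegular R (S.prod T) (fun z => HT.pair S T (f z) (g z)) := by
  obtain ⟨F, hF⟩ := hf
  obtain ⟨G, hG⟩ := hg
  refine ⟨Sum.elim F G, fun z i => ?_⟩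
  rcases i with i | i
  · exact hF z i
  · exact hG z i

theorem σ_regular (α β : ℂ) : IsRegular (P α β) (P α β) (σ α β) :=
  IsRegular.pair ((inv_regular α β).comp (fst_regular _ _)) (refl_regular.comp (snd_regular _ _))

theorem σ₁_regular (α β : ℂ) : IsRegular (Z α β) (Z α β) (σ₁ α β) :=
  IsRegular.pair ((σ_regular α β).comp (fst_regular _ _)) (snd_regular _ _)

theorem σ₂_regular (α β : ℂ) : IsRegular (Z α β) (Z α β) (σ₂ α β) :=
  IsRegular.pair (fst_regular _ _) ((σ_regular α β).comp (snd_regular _ _))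

theorem τ_regular (α β : ℂ) : IsRegular (Z α β) (Z α β) (τ α β) :=
  IsRegular.pair (snd_regular _ _) (fst_regular _ _)

/-- The group of order 8 generated by `σ` on the two factors and the exchange of the factors. -/
def Γ (α β : ℂ) : Subgroup (Equiv.Perm (Z α β).Pts) :=
  Subgroup.closure {σ₁ α β, σ₂ α β, τ α β}

theorem s11 (α β : ℂ) : σ₁ α β * σ₁ α β = 1 := Equiv.ext (fun z => (σ₁ α β).symm_apply_apply z)
theorem s22 (α β : ℂ) : σ₂ α β * σ₂ α β = 1 := Equiv.ext (fun z => (σ₂ α β).symm_apply_apply z)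
theorem tt (α β : ℂ) : τ α β * τ α β = 1 := Equiv.ext (fun z => (τ α β).symm_apply_apply z)
theorem s12 (α β : ℂ) : σ₁ α β * σ₂ α β = σ₂ α β * σ₁ α β := Equiv.ext (fun _ => rfl)
theorem ts1 (α β : ℂ) : τ α β * σ₁ α β = σ₂ α β * τ α β := Equiv.ext (fun _ => rfl)
theorem ts2 (α β : ℂ) : τ α β * σ₂ α β = σ₁ α β * τ α β := Equiv.ext (fun _ => rfl)

/-- The elements of `Γ`. -/
def elt (α β : ℂ) (i : Bool × Bool × Bool) : Equiv.Perm (Z α β).Pts :=
  (if i.1 then σ₁ α β else 1) * (if i.2.1 then σ₂ α β else 1) * (if i.2.2 then τ α β else 1)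

theorem mem_elt {α β : ℂ} {g : Equiv.Perm (Z α β).Pts} (hg : g ∈ Γ α β) :
    ∃ i, g = elt α β i := by
  have h11 : ∀ x, σ₁ α β * (σ₁ α β * x) = x := fun x => by rw [← mul_assoc, s11, one_mul]
  have h22 : ∀ x, σ₂ α β * (σ₂ α β * x) = x := fun x => by rw [← mul_assoc, s22, one_mul]
  have h21 : ∀ x, σ₂ α β * (σ₁ α β * x) = σ₁ α β * (σ₂ α β * x) := fun x => by
    rw [← mul_assoc, ← s12, mul_assoc]
  have ht1 : ∀ x, τ α β * (σ₁ α β * x) = σ₂ α β * (τ α β * x) := fun x => by
    rw [← mul_assoc, ts1, mul_assoc]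
  have ht2 : ∀ x, τ α β * (σ₂ α β * x) = σ₁ α β * (τ α β * x) := fun x => by
    rw [← mul_assoc, ts2, mul_assoc]
  have key : ∀ s ∈ ({σ₁ α β, σ₂ α β, τ α β} : Set (Equiv.Perm (Z α β).Pts)), ∀ i,
      ∃ j, s * elt α β i = elt α β j := by
    rintro s (rfl | rfl | rfl) ⟨i, j, k⟩
    · refine ⟨(!i, j, k), ?_⟩
      cases i <;> cases j <;> cases k <;> simp [elt, mul_assoc, h11, s11]
    · refine ⟨(i, !j, k), ?_⟩
      cases i <;> cases j <;> cases k <;> simp [elt, mul_assoc, h22, s22, h21, ← s12]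
    · refine ⟨(j, i, !k), ?_⟩
      cases i <;> cases j <;> cases k <;>
        simp [elt, mul_assoc, h21, ht1, ht2, tt, ts1, ts2, ← s12]
  induction hg using Subgroup.closure_induction_left with
  | one => exact ⟨(false, false, false), by simp [elt]⟩
  | mul_left s hs x _ ih =>
    obtain ⟨i, rfl⟩ := ih
    exact key s hs i
  | inv_mul_cancel s hs x _ ih =>
    obtain ⟨i, rfl⟩ := ih
    have : s⁻¹ = s := by
      rw [inv_eq_iff_mul_eq_one]
      rcases hs with rfl | rfl | rfl
      · exact s11 α β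
      · exact s22 α β
      · exact tt α β
    rw [this]
    exact key s hs i

theorem elt_regular (α β : ℂ) (i : Bool × Bool × Bool) :
    IsRegular (Z α β) (Z α β) (elt α β i) := by
  have h1 : ∀ b : Bool, IsRegular (Z α β) (Z α β)
      (if b then σ₁ α β else 1 : Equiv.Perm (Z α β).Pts) := by
    intro b; cases b
    · exact IsRegular.id _
    · exact σ₁_regular α β
  have h2 : ∀ b : Bool, IsRegular (Z α β) (Z α β)
      (if b then σ₂ α β else 1 : Equiv.Perm (Z α β).Pts) := by
    intro b; cases b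
    · exact IsRegular.id _
    · exact σ₂_regular α β
  have h3 : ∀ b : Bool, IsRegular (Z α β) (Z α β)
      (if b then τ α β else 1 : Equiv.Perm (Z α β).Pts) := by
    intro b; cases b
    · exact IsRegular.id _
    · exact τ_regular α β
  exact ((h1 i.1).comp (h2 i.2.1)).comp (h3 i.2.2)

/-- The variety `X = Z / Γ`, the symmetric square of the hypersurface
`w² = (x³ + α x + β) (1 - b² - c²)`. -/
def Xvar (α β : ℂ) : QuotVar where
  S := Z α β
  G := Γ α β
  finite := by
    have h : ((Γ α β : Subgroup (Equiv.Perm (Z α β).Pts)) : Set (Equiv.Perm (Z α β).Pts)) ⊆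
        Set.range (elt α β) := by
      intro g hg
      obtain ⟨i, hi⟩ := mem_elt hg
      exact ⟨i, hi.symm⟩
    exact ((Set.finite_range (elt α β)).subset h).to_subtype
  regular := by
    intro g hg
    obtain ⟨i, rfl⟩ := mem_elt hg
    exact elt_regular α β i

end Pool.Agent.D0H90.HT
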