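import Pool.Agent.D0H90.HT.Defs2

set_option autoImplicit false

/-!
# Rational homotopy groups, rationally elliptic varieties
-/

namespace Pool.Agent.D0H90.HT

/-- The rational homotopy group `π_{k+2}(X, x) ⊗ ℚ`. -/
abbrev ratPi (X : Type) [TopologicalSpace X] (x : X) (k : ℕ) : Type :=
  TensorProduct ℤ ℚ (Additive (HomotopyGroup (Fin (k + 2)) X x))

/-- The properties of Sullivan's algebras `A_PL(X) ⊗ ℂ` of piecewise polynomial differential forms
which are used here: the cohomology algebra, and the theorem of Sullivan on the rational homotopy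
groups of simply connected spaces in the case of a free minimal model `(Λ(ℂ^r), 0)` with generators
of odd degree `n`. -/
structure SullivanTheory (𝓗 : MixedHodgeTheory) where
  /-- the algebra `A_PL(X) ⊗ ℂ` -/
  apl : QuotVar → Cdga
  cohomology : ∀ V, HasCohomology (apl V) 𝓗 V
  sullivan : ∀ (V : QuotVar) (n r : ℕ), SimplyConnectedSpace V.Points → Odd n →
    IsModel (apl V) n r → ∀ (x : V.Points) (k : ℕ), Module.Finite ℚ (ratPi V.Points x k) ∧
      Module.finrank ℚ (ratPi V.Points x k) = if k + 2 = n then r else 0

/-- Rationally elliptic: simply connected, the total cohomology and the total rational homotopy are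
finite-dimensional. -/
def RationallyElliptic (𝓗 : MixedHodgeTheory) (V : QuotVar) : Prop :=
  SimplyConnectedSpace V.Points ∧ Module.Finite ℂ (coh 𝓗 V) ∧
    ∀ x : V.Points, (∀ k, Module.Finite ℚ (ratPi V.Points x k)) ∧
      ∃ N, ∀ k, N ≤ k → Subsingleton (ratPi V.Points x k)

/-- Hodge-Tate type (balanced): `h^{k,p,q} = 0` for all `k` and all `p ≠ q`. -/
def IsHodgeTate (𝓗 : MixedHodgeTheory) (V : QuotVar) : Prop :=
  ∀ k p q, p ≠ q → hodgeNumber 𝓗 V k p q = 0

end Pool.Agent.D0H90.HT
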