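import Pool.Agent.D0H90.HT.Stm2
import Pool.Agent.D0H90.HT.Defs3

set_option autoImplicit false

namespace Pool.Agent.D0H90.HT

theorem main (hHN : S_HN) (hMOD : S_MOD) (hSC : S_SC) (hINV : S_INV) (α β : ℂ)
    (h : 4 * α ^ 3 + 27 * β ^ 2 ≠ 0) :
    SimplyConnectedSpace (Xvar α β).Points ∧ ∀ 𝓗 : MixedHodgeTheory,
      (∀ k p q, hodgeNumber 𝓗 (Xvar α β) k p q =
        if (k, p, q) = (0, 0, 0) ∨ (k, p, q) = (3, 2, 1) ∨ (k, p, q) = (3, 1, 2) ∨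
          (k, p, q) = (6, 3, 3) then 1 else 0) ∧
      (∀ A : Cdga, HasCohomology A 𝓗 (Xvar α β) → IsModel A 3 2) ∧
      ∀ _ : SullivanTheory 𝓗,
        RationallyElliptic 𝓗 (Xvar α β) ∧ ¬ IsHodgeTate 𝓗 (Xvar α β) ∧
        ∀ (x : (Xvar α β).Points) (k : ℕ),
          Module.finrank ℚ (ratPi (Xvar α β).Points x k) = if k = 1 then 2 else 0 := by
  obtain ⟨hsc, hall⟩ := final hHN hMOD hSC hINV α β h
  refine ⟨hsc, fun 𝓗 => ⟨(hall 𝓗).1, (hall 𝓗).2, fun 𝓢 => ?_⟩⟩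
  have hs := 𝓢.sullivan (Xvar α β) 3 2 hsc (by decide) ((hall 𝓗).2 _ (𝓢.cohomology _))
  have hrank : ∀ (x : (Xvar α β).Points) (k : ℕ),
      Module.finrank ℚ (ratPi (Xvar α β).Points x k) = if k = 1 then 2 else 0 := by
    intro x k
    rw [(hs x k).2]
    congr 1
    simp
  refine ⟨⟨hsc, ?_, fun x => ⟨fun k => (hs x k).1, 2, fun k hk => ?_⟩⟩, fun ht => ?_, hrank⟩
  · exact FiniteDimensional.finiteDimensional_submodule (Subalgebra.toSubmodule (coh 𝓗 (Xvar α β)))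
  · have := (hs x k).1
    have h0 := hrank x k
    rw [if_neg (by omega)] at h0
    exact Module.finrank_zero_iff.1 h0
  · have h1 := ht 3 2 1 (by decide)
    rw [(hall 𝓗).1 3 2 1] at h1
    simp at h1

end Pool.Agent.D0H90.HT
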