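import Pool.Agent.D0H90.HT.Defs2
import Pool.Agent.D0H90.HT.Defs3

set_option autoImplicit false

/-!
# The definitions of the final statement (MP_2059f1_ag)

Varieties are defined in `Defs` and `Defs2`. This file contains the properties of Deligne's mixed
Hodge structures and of Sullivan's algebras of differential forms which are used.
-/

namespace Pool.Agent.D0H90.HT

/-- Cohomology algebras `H S = H^*(S; ℂ)` of the affine varieties with subspaces `piece S (k, p, q)`:
the subspaces `I^{p,q}` of `H^k(S; ℂ)` in Deligne's functorial splitting of the mixed Hodge structure,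
of dimension `h^{k,p,q}(S) = dim Gr_F^p Gr^W_{p+q} H^k(S; ℂ)`. -/
structure CohData where
  H : AffVar → Type
  [ring : ∀ S, Ring (H S)]
  [algebra : ∀ S, Algebra ℂ (H S)]
  [finite : ∀ S, Module.Finite ℂ (H S)]
  piece : ∀ S, ℕ × ℕ × ℕ → Submodule ℂ (H S)

attribute [instance] CohData.ring CohData.algebra CohData.finite

/-- `x` lies in `I^{p,q} H^k(S)`, `a = (k, p, q)`. -/
def CohData.Has (D : CohData) (S : AffVar) (a : ℕ × ℕ × ℕ) (x : D.H S) : Prop := x ∈ D.piece S a

/-- The algebras are the direct sums of the pieces, multiplicative and graded commutative. -/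
structure IsGraded (D : CohData) : Prop where
  internal : ∀ S, DirectSum.IsInternal (D.piece S)
  one_mem : ∀ S, D.Has S 0 1
  mul_mem : ∀ S a b x y, D.Has S a x → D.Has S b y → D.Has S (a + b) (x * y)
  comm : ∀ S a b x y, D.Has S a x → D.Has S b y → x * y = (-1 : ℂ) ^ (a.1 * b.1) • (y * x)

/-- Pullback homomorphisms under regular maps. -/
structure PullData extends CohData where
  pull : ∀ S T (f : S.Pts → T.Pts), IsRegular S T f → (H T →ₐ[ℂ] H S)

/-- The pullback `f^* x`. -/
def PullData.star (D : PullData) (S T : AffVar) (f : S.Pts → T.Pts) (hf : IsRegular S T f)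
    (x : D.H T) : D.H S := D.pull S T f hf x

/-- The pullbacks are functorial and compatible with the pieces. -/
structure IsFunctorial (D : PullData) : Prop where
  id : ∀ S (h : IsRegular S S _root_.id) x, D.star S S _root_.id h x = x
  comp : ∀ S T U (f : S.Pts → T.Pts) (g : T.Pts → U.Pts) (hf : IsRegular S T f)
    (hg : IsRegular T U g) (h : IsRegular S U (g ∘ f)) x,
    D.star S U (g ∘ f) h x = D.star S T f hf (D.star T U g hg x)
  mem : ∀ S T (f : S.Pts → T.Pts) (hf : IsRegular S T f) a x, D.Has T a x →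
    D.Has S a (D.star S T f hf x)

/-- The bilinear map `(x, y) ↦ pr₁^* x ∪ pr₂^* y`. -/
noncomputable def cross (D : PullData) (S T : AffVar) :
    D.H S →ₗ[ℂ] D.H T →ₗ[ℂ] D.H (S.prod T) :=
  (LinearMap.mul ℂ (D.H (S.prod T))).compl₁₂
    (D.pull (S.prod T) S (fst S T) (fst_regular S T)).toLinearMap
    (D.pull (S.prod T) T (snd S T) (snd_regular S T)).toLinearMap

/-- The Künneth formula. -/
def Kunneth (D : PullData) : Prop :=
  ∀ S T, Function.Bijective (TensorProduct.lift (cross D S T))

/-- The dimension of a piece. -/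
noncomputable def dimPiece (D : CohData) (S : AffVar) (a : ℕ × ℕ × ℕ) : ℕ :=
  Module.finrank ℂ (D.piece S a)

/-- The cohomology of an affine elliptic curve: `H^0 = ℂ`, `H^1` has the types `(1,0)`, `(0,1)`, and
the involution `(x, y) ↦ (x, - y)` acts on `H^1` by `-1`. -/
def Elliptic (D : PullData) (α β : ℂ) : Prop :=
  (∀ a, dimPiece D.toCohData (curve α β) a =
      if a = (0, 0, 0) ∨ a = (1, 1, 0) ∨ a = (1, 0, 1) then 1 else 0) ∧
    ∀ p q x, D.Has (curve α β) (1, p, q) x →
      D.star (curve α β) (curve α β) (inv α β) (inv_regular α β) x = - x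

/-- The cohomology of the affine quadric surface: `H^0 = ℂ`, `H^2 = ℂ` is of type `(1,1)` and the
reflection acts on it by `-1`. -/
def Sphere (D : PullData) : Prop :=
  (∀ a, dimPiece D.toCohData quadric a = if a = (0, 0, 0) ∨ a = (2, 1, 1) then 1 else 0) ∧
    ∀ x, D.Has quadric (2, 1, 1) x → D.star quadric quadric refl refl_regular x = - x

/-- The properties of Deligne's mixed Hodge structures on the cohomology algebras of complex affine
varieties which are used here. -/
structure DeligneTheory extends PullData where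
  graded : IsGraded toCohData
  functorial : IsFunctorial toPullData
  kunneth : Kunneth toPullData
  elliptic : ∀ α β : ℂ, 4 * α ^ 3 + 27 * β ^ 2 ≠ 0 → Elliptic toPullData α β
  sphere : Sphere toPullData

/-- `x ∈ H^*(S)` is invariant under the group, that is, it is a class of `H^*(S / G)`. -/
def Inv (T : DeligneTheory) (V : QuotVar) (x : T.H V.S) : Prop :=
  ∀ g (hg : g ∈ V.G), T.star V.S V.S g (V.regular g hg) x = x

/-- The cohomology algebra `H^*(S / G; ℂ) = H^*(S; ℂ)^G` (as a subspace of `H^*(S; ℂ)`). -/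
def cohomology (T : DeligneTheory) (V : QuotVar) : Submodule ℂ (T.H V.S) where
  carrier := {x | Inv T V x}
  add_mem' := by
    intro x y hx hy g hg
    have h := map_add (T.pull V.S V.S g (V.regular g hg)) x y
    exact h.trans (congrArg₂ (· + ·) (hx g hg) (hy g hg))
  zero_mem' := fun g hg => map_zero (T.pull V.S V.S g (V.regular g hg))
  smul_mem' := by
    intro c x hx g hg
    have h := map_smul (T.pull V.S V.S g (V.regular g hg)) c x
    exact h.trans (congrArg (c • ·) (hx g hg))

/-- The piece `I^{p,q} H^k(S / G)`. -/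
def cohPiece (T : DeligneTheory) (V : QuotVar) (a : ℕ × ℕ × ℕ) : Submodule ℂ (T.H V.S) :=
  T.piece V.S a ⊓ cohomology T V

/-- The mixed Hodge number `h^{k,p,q}(S / G)`. -/
noncomputable def mhn (T : DeligneTheory) (V : QuotVar) (k p q : ℕ) : ℕ :=
  Module.finrank ℂ (cohPiece T V (k, p, q))

/-- A graded algebra with a differential. -/
structure DgData where
  A : Type
  [ring : Ring A]
  [algebra : Algebra ℂ A]
  gr : ℕ → Submodule ℂ A
  d : A →ₗ[ℂ] A

attribute [instance] DgData.ring DgData.algebra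

/-- `x` has degree `n`. -/
def DgData.Deg (A : DgData) (n : ℕ) (x : A.A) : Prop := x ∈ A.gr n

/-- The differential of `x`. -/
def DgData.D (A : DgData) (x : A.A) : A.A := A.d x

/-- Commutative differential graded algebras. -/
structure IsCdga (A : DgData) : Prop where
  internal : DirectSum.IsInternal A.gr
  one_mem : A.Deg 0 1
  mul_mem : ∀ m n x y, A.Deg m x → A.Deg n y → A.Deg (m + n) (x * y)
  comm : ∀ m n x y, A.Deg m x → A.Deg n y → x * y = (-1 : ℂ) ^ (m * n) • (y * x)
  d_mem : ∀ n x, A.Deg n x → A.Deg (n + 1) (A.D x)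
  d_d : ∀ x, A.D (A.D x) = 0
  leibniz : ∀ n x y, A.Deg n x → A.D (x * y) = A.D x * y + (-1 : ℂ) ^ n • (x * A.D y)

/-- `ρ` identifies the cohomology algebra of the differential graded algebra `A` with
`H^*(S / G; ℂ)`: it is linear and multiplicative on the cocycles and maps them onto
`H^*(S / G; ℂ)`, it vanishes exactly on the coboundaries, and it preserves the degrees. -/
structure IsCohMap (T : DeligneTheory) (V : QuotVar) (A : DgData) (ρ : A.A → T.H V.S) : Prop where
  linear : ∀ (c : ℂ) x y, A.D x = 0 → A.D y = 0 → ρ (c • x + y) = c • ρ x + ρ y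
  one : ρ 1 = 1
  mul : ∀ x y, A.D x = 0 → A.D y = 0 → ρ (x * y) = ρ x * ρ y
  onto : ∀ w, Inv T V w ↔ ∃ x, A.D x = 0 ∧ ρ x = w
  ker : ∀ x, A.D x = 0 → (ρ x = 0 ↔ ∃ y, A.D y = x)
  degree : ∀ k x, A.D x = 0 → A.Deg k x → ρ x ∈ ⨆ a : ℕ × ℕ, T.piece V.S (k, a)

/-- `A` has the cohomology algebra `H^*(S / G; ℂ)`. -/
def HasCoh (T : DeligneTheory) (V : QuotVar) (A : DgData) : Prop :=
  ∃ ρ : A.A → T.H V.S, IsCohMap T V A ρ

/-- The vector space `ℂ^r`. -/
def Vec (r : ℕ) : Type := Fin r → ℂ

noncomputable instance (r : ℕ) : AddCommGroup (Vec r) := inferInstanceAs (AddCommGroup (Fin r → ℂ))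

noncomputable instance (r : ℕ) : Module ℂ (Vec r) := inferInstanceAs (Module ℂ (Fin r → ℂ))

/-- The exterior algebra `Λ(ℂ^r)`. -/
def Ext (r : ℕ) : Type := ExteriorAlgebra ℂ (Vec r)

noncomputable instance (r : ℕ) : Ring (Ext r) := inferInstanceAs (Ring (ExteriorAlgebra ℂ (Vec r)))

noncomputable instance (r : ℕ) : Algebra ℂ (Ext r) :=
  inferInstanceAs (Algebra ℂ (ExteriorAlgebra ℂ (Vec r)))

/-- The inclusion of the generators `ℂ^r → Λ(ℂ^r)`. -/
noncomputable def Ext.gen (r : ℕ) (v : Vec r) : Ext r := ExteriorAlgebra.ι ℂ v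

/-- `φ` is a quasi-isomorphism from `(Λ(ℂ^r), 0)`, generators in degree `n`, to `A`. -/
structure IsQuasiIso (A : DgData) (n r : ℕ) (φ : Ext r →ₐ[ℂ] A.A) : Prop where
  degree : ∀ v, A.Deg n (φ (Ext.gen r v))
  cocycle : ∀ x, A.D (φ x) = 0
  inj : ∀ x, (∃ y, A.D y = φ x) → x = 0
  surj : ∀ z, A.D z = 0 → ∃ x y, z = φ x + A.D y

/-- `(Λ(ℂ^r), 0)` with generators of the odd degree `n` is a minimal Sullivan model of `A`. -/
def HasModel (A : DgData) (n r : ℕ) : Prop := ∃ φ : Ext r →ₐ[ℂ] A.A, IsQuasiIso A n r φ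

/-- The dimension of `π_{k+2}(X, x) ⊗ ℚ` is (finite and) equal to `r`. -/
def PiRank (X : Type) [TopologicalSpace X] (x : X) (k r : ℕ) : Prop :=
  Module.Finite ℚ (ratPi X x k) ∧ Module.finrank ℚ (ratPi X x k) = r

/-- The properties of Sullivan's algebras `A_PL(X) ⊗ ℂ` which are used here: they are commutative
differential graded algebras with cohomology algebra `H^*(X; ℂ)`, and Sullivan's theorem on the
rational homotopy groups of simply connected spaces for the free models `(Λ(ℂ^r), 0)`. -/
structure Sullivan (T : DeligneTheory) where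
  apl : QuotVar → DgData
  cdga : ∀ V, IsCdga (apl V)
  cohomology : ∀ V, HasCoh T V (apl V)
  homotopy : ∀ (V : QuotVar) (n r : ℕ), SimplyConnectedSpace V.Points → Odd n →
    HasModel (apl V) n r → ∀ (x : V.Points) (k : ℕ),
      PiRank V.Points x k (if k + 2 = n then r else 0)

/-- Rationally elliptic: simply connected, the total cohomology and the total rational homotopy are
finite-dimensional. -/
def Elliptical (T : DeligneTheory) (V : QuotVar) : Prop :=
  SimplyConnectedSpace V.Points ∧ Module.Finite ℂ (cohomology T V) ∧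
    ∀ x : V.Points, (∀ k, ∃ r, PiRank V.Points x k r) ∧ ∃ N, ∀ k, N ≤ k → PiRank V.Points x k 0

/-- Hodge-Tate type (balanced): `h^{k,p,q} = 0` for all `k` and all `p ≠ q`. -/
def HodgeTate (T : DeligneTheory) (V : QuotVar) : Prop := ∀ k p q, p ≠ q → mhn T V k p q = 0

end Pool.Agent.D0H90.HT
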