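import Pool.Agent.D0H90.HT.Fin
import Pool.Agent.D0H90.HT.Short

set_option autoImplicit false

namespace Pool.Agent.D0H90.HT

/-- The theory in the form used in the proofs. -/
def DeligneTheory.old (T : DeligneTheory) : MixedHodgeTheory where
  H := T.H
  ring := T.ring
  algebra := T.algebra
  finite := T.finite
  piece := T.piece
  internal := T.graded.internal
  one_mem := T.graded.one_mem
  mul_mem := T.graded.mul_mem
  comm := T.graded.comm
  pull := T.pull
  pull_id := T.functorial.id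
  pull_comp := T.functorial.comp
  pull_mem := T.functorial.mem
  kunneth := T.kunneth
  elliptic := T.elliptic
  sphere := T.sphere

/-- The algebra in the form used in the proofs. -/
def IsCdga.old {A : DgData} (h : IsCdga A) : Cdga where
  A := A.A
  ring := A.ring
  algebra := A.algebra
  gr := A.gr
  internal := h.internal
  one_mem := h.one_mem
  mul_mem := h.mul_mem
  comm := h.comm
  d := A.d
  d_mem := h.d_mem
  d_d := h.d_d
  leibniz := h.leibniz

theorem cohomology_eq (T : DeligneTheory) (V : QuotVar) :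
    cohomology T V = Subalgebra.toSubmodule (coh T.old V) := rfl

/-- From functions to linear maps. -/
theorem hasCohomology (T : DeligneTheory) (V : QuotVar) (A : DgData) (hA : IsCdga A)
    (h : HasCoh T V A) : HasCohomology hA.old T.old V := by
  obtain ⟨ρ, hρ⟩ := h
  have h0 : A.D 0 = 0 := map_zero A.d
  have hρ0 : ρ 0 = 0 := (hρ.ker 0 h0).2 ⟨0, h0⟩
  refine ⟨{ toFun := fun z => ρ z.1, map_add' := ?_, map_smul' := ?_ }, ?_, ?_, ?_, ?_, ?_⟩
  · intro x y
    have h := hρ.linear 1 x.1 y.1 x.2 y.2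
    rw [one_smul, one_smul] at h
    exact h
  · intro c x
    have h := hρ.linear c x.1 0 x.2 h0
    rw [add_zero, hρ0, add_zero] at h
    exact h
  · ext w
    constructor
    · rintro ⟨z, rfl⟩
      exact (hρ.onto _).2 ⟨z.1, z.2, rfl⟩
    · intro hw
      obtain ⟨x, hx, rfl⟩ := (hρ.onto w).1 hw
      exact ⟨⟨x, hx⟩, rfl⟩
  · intro z
    exact hρ.ker z.1 z.2
  · intro k z hz
    exact hρ.degree k z.1 z.2 hz
  · intro z hz
    show ρ z.1 = 1
    rw [hz]
    exact hρ.one
  · intro x y z hz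
    show ρ z.1 = ρ x.1 * ρ y.1
    rw [hz]
    exact hρ.mul x.1 y.1 x.2 y.2

theorem hasModel (A : DgData) (hA : IsCdga A) (n r : ℕ) (h : IsModel hA.old n r) :
    HasModel A n r := by
  obtain ⟨φ, h1, h2, h3, h4⟩ := h
  exact ⟨φ, h1, h2, h3, h4⟩

/-- The final theorem with the short definitions. -/
theorem main2 (hHN : S_HN) (hMOD : S_MOD) (hSC : S_SC) (hINV : S_INV) (α β : ℂ)
    (h : 4 * α ^ 3 + 27 * β ^ 2 ≠ 0) :
    SimplyConnectedSpace (Xvar α β).Points ∧ ∀ T : DeligneTheory,
      (∀ k p q, mhn T (Xvar α β) k p q =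
        if (k, p, q) = (0, 0, 0) ∨ (k, p, q) = (3, 2, 1) ∨ (k, p, q) = (3, 1, 2) ∨
          (k, p, q) = (6, 3, 3) then 1 else 0) ∧
      (∀ A : DgData, IsCdga A → HasCoh T (Xvar α β) A → HasModel A 3 2) ∧
      ∀ _ : Sullivan T,
        Elliptical T (Xvar α β) ∧ ¬ HodgeTate T (Xvar α β) ∧
        ∀ (x : (Xvar α β).Points) (k : ℕ), PiRank (Xvar α β).Points x k (if k = 1 then 2 else 0) := by
  obtain ⟨hsc, hall⟩ := final hHN hMOD hSC hINV α β h
  refine ⟨hsc, fun T => ?_⟩
  have hnum : ∀ k p q, mhn T (Xvar α β) k p q =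
        if (k, p, q) = (0, 0, 0) ∨ (k, p, q) = (3, 2, 1) ∨ (k, p, q) = (3, 1, 2) ∨
          (k, p, q) = (6, 3, 3) then 1 else 0 := (hall T.old).1
  have hmod : ∀ A : DgData, IsCdga A → HasCoh T (Xvar α β) A → HasModel A 3 2 :=
    fun A hA hc => hasModel A hA 3 2 ((hall T.old).2 hA.old (hasCohomology T _ A hA hc))
  refine ⟨hnum, hmod, fun 𝓢 => ?_⟩
  have hs := 𝓢.homotopy (Xvar α β) 3 2 hsc (by decide) (hmod _ (𝓢.cdga _) (𝓢.cohomology _))
  have hrank : ∀ (x : (Xvar α β).Points) (k : ℕ),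
      PiRank (Xvar α β).Points x k (if k = 1 then 2 else 0) := by
    intro x k
    have h := hs x k
    have e : (if k + 2 = 3 then 2 else 0) = (if k = 1 then 2 else 0) := by
      congr 1
      simp
    rwa [e] at h
  refine ⟨⟨hsc, ?_, fun x => ⟨fun k => ⟨_, hrank x k⟩, 2, fun k hk => ?_⟩⟩, fun ht => ?_, hrank⟩
  · exact FiniteDimensional.finiteDimensional_submodule (cohomology T (Xvar α β))
  · have h := hrank x k
    rwa [if_neg (by omega)] at h
  · have h1 := ht 3 2 1 (by decide)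
    rw [hnum 3 2 1] at h1
    simp at h1

end Pool.Agent.D0H90.HT
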