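import Pool.Agent.D0H90.HT.Stm2

set_option autoImplicit false

namespace Pool.Agent.D0H90.HT

open TensorProduct

theorem pull_pull (𝓗 : MixedHodgeTheory) {S T U : AffVar} {f : S.Pts → T.Pts} {g : T.Pts → U.Pts}
    {k : S.Pts → U.Pts} (hf : IsRegular S T f) (hg : IsRegular T U g) (hk : IsRegular S U k)
    (h : g ∘ f = k) (x : 𝓗.H U) :
    𝓗.pull S T f hf (𝓗.pull T U g hg x) = 𝓗.pull S U k hk x := by
  subst h
  exact (𝓗.pull_comp S T U f g hf hg hk x).symm

theorem mem_coh_iff (𝓗 : MixedHodgeTheory) (α β : ℂ) (x : 𝓗.H (Z α β)) :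
    x ∈ coh 𝓗 (Xvar α β) ↔ 𝓗.pull (Z α β) (Z α β) (σ₁ α β) (σ₁_regular α β) x = x ∧
      𝓗.pull (Z α β) (Z α β) (σ₂ α β) (σ₂_regular α β) x = x ∧
      𝓗.pull (Z α β) (Z α β) (τ α β) (τ_regular α β) x = x := by
  constructor
  · intro h
    exact ⟨h (σ₁ α β) (Subgroup.subset_closure (Set.mem_insert _ _)),
      h (σ₂ α β) (Subgroup.subset_closure (Set.mem_insert_of_mem _ (Set.mem_insert _ _))),
      h (τ α β) (Subgroup.subset_closure
        (Set.mem_insert_of_mem _ (Set.mem_insert_of_mem _ rfl)))⟩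
  · rintro ⟨h1, h2, h3⟩ g hg
    have hmul : ∀ (u v : Equiv.Perm (Z α β).Pts),
        (∃ hu : IsRegular (Z α β) (Z α β) u, 𝓗.pull (Z α β) (Z α β) u hu x = x) →
        (∃ hv : IsRegular (Z α β) (Z α β) v, 𝓗.pull (Z α β) (Z α β) v hv x = x) →
        ∃ huv : IsRegular (Z α β) (Z α β) (u * v : Equiv.Perm (Z α β).Pts),
          𝓗.pull (Z α β) (Z α β) (u * v : Equiv.Perm (Z α β).Pts) huv x = x := by
      rintro u v ⟨hu, h1⟩ ⟨hv, h2⟩
      refine ⟨hu.comp hv, ?_⟩
      have h := pull_pull 𝓗 hv hu (hu.comp hv) rfl x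
      rw [h1, h2] at h
      exact h.symm
    have hone : ∀ h : IsRegular (Z α β) (Z α β) (1 : Equiv.Perm (Z α β).Pts),
        𝓗.pull (Z α β) (Z α β) (1 : Equiv.Perm (Z α β).Pts) h x = x :=
      fun h => 𝓗.pull_id (Z α β) h x
    have hif : ∀ (b : Bool) (s : Equiv.Perm (Z α β).Pts) (hs : IsRegular (Z α β) (Z α β) s),
        𝓗.pull (Z α β) (Z α β) s hs x = x →
        ∃ hs' : IsRegular (Z α β) (Z α β) (if b then s else 1 : Equiv.Perm (Z α β).Pts),
          𝓗.pull (Z α β) (Z α β) (if b then s else 1 : Equiv.Perm (Z α β).Pts) hs' x = x := by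
      intro b s hs h
      cases b
      · exact ⟨IsRegular.id _, hone _⟩
      · exact ⟨hs, h⟩
    obtain ⟨⟨i, j, k⟩, rfl⟩ := mem_elt hg
    obtain ⟨_, e⟩ := hmul _ _ (hmul _ _ (hif i _ (σ₁_regular α β) h1)
      (hif j _ (σ₂_regular α β) h2)) (hif k _ (τ_regular α β) h3)
    exact e

/-- The invariants. -/
theorem t_INV (hI : S_INVP) : S_INV := by
  intro α β hdisc 𝓗
  obtain ⟨a, b, ha, hb, hind, haa, hab, hba, hbb, hfix⟩ := hI α β hdisc 𝓗 (σ_regular α β)
  set p1 : 𝓗.H (P α β) →ₐ[ℂ] 𝓗.H (Z α β) :=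
    𝓗.pull (Z α β) (P α β) (fst _ _) (fst_regular _ _) with hp1
  set p2 : 𝓗.H (P α β) →ₐ[ℂ] 𝓗.H (Z α β) :=
    𝓗.pull (Z α β) (P α β) (snd _ _) (snd_regular _ _) with hp2
  set S : 𝓗.H (P α β) →ₐ[ℂ] 𝓗.H (P α β) :=
    𝓗.pull (P α β) (P α β) (σ α β) (σ_regular α β) with hS
  set S1 := 𝓗.pull (Z α β) (Z α β) (σ₁ α β) (σ₁_regular α β) with hS1
  set S2 := 𝓗.pull (Z α β) (Z α β) (σ₂ α β) (σ₂_regular α β) with hS2
  set T := 𝓗.pull (Z α β) (Z α β) (τ α β) (τ_regular α β) with hT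
  -- the action on the classes which come from the factors
  have e11 : ∀ x, S1 (p1 x) = p1 (S x) := fun x => by
    rw [hS1, hp1, hS]
    have hk : IsRegular (Z α β) (P α β) (σ α β ∘ fst (P α β) (P α β)) :=
      (σ_regular α β).comp (fst_regular _ _)
    rw [pull_pull 𝓗 (σ₁_regular α β) (fst_regular _ _) hk rfl,
      pull_pull 𝓗 (fst_regular _ _) (σ_regular α β) hk rfl]
  have e12 : ∀ x, S1 (p2 x) = p2 x := fun x => by
    rw [hS1, hp2]
    exact pull_pull 𝓗 (σ₁_regular α β) (snd_regular _ _) (snd_regular _ _) rfl x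
  have e21 : ∀ x, S2 (p1 x) = p1 x := fun x => by
    rw [hS2, hp1]
    exact pull_pull 𝓗 (σ₂_regular α β) (fst_regular _ _) (fst_regular _ _) rfl x
  have e22 : ∀ x, S2 (p2 x) = p2 (S x) := fun x => by
    rw [hS2, hp2, hS]
    have hk : IsRegular (Z α β) (P α β) (σ α β ∘ snd (P α β) (P α β)) :=
      (σ_regular α β).comp (snd_regular _ _)
    rw [pull_pull 𝓗 (σ₂_regular α β) (snd_regular _ _) hk rfl,
      pull_pull 𝓗 (snd_regular _ _) (σ_regular α β) hk rfl]
  have eT1 : ∀ x, T (p1 x) = p2 x := fun x => by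
    rw [hT, hp1, hp2]
    exact pull_pull 𝓗 (τ_regular α β) (fst_regular _ _) (snd_regular _ _) rfl x
  have eT2 : ∀ x, T (p2 x) = p1 x := fun x => by
    rw [hT, hp1, hp2]
    exact pull_pull 𝓗 (τ_regular α β) (snd_regular _ _) (fst_regular _ _) rfl x
  have eSS : ∀ x, S (S x) = x := fun x => by
    rw [hS, pull_pull 𝓗 (σ_regular α β) (σ_regular α β) (IsRegular.id _)
      (funext fun z => σσ α β z)]
    exact 𝓗.pull_id _ _ x
  -- the Künneth map
  set K : 𝓗.H (P α β) ⊗[ℂ] 𝓗.H (P α β) →ₗ[ℂ] 𝓗.H (Z α β) :=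
    TensorProduct.lift ((LinearMap.mul ℂ (𝓗.H ((P α β).prod (P α β)))).compl₁₂
      p1.toLinearMap p2.toLinearMap) with hK
  have hKb : Function.Bijective K := 𝓗.kunneth (P α β) (P α β)
  have hKt : ∀ x y, K (x ⊗ₜ[ℂ] y) = p1 x * p2 y := fun x y => rfl
  let bet : Fin 3 → 𝓗.H (P α β) := ![1, a, b]
  let w : Fin 3 × Fin 3 → 𝓗.H (Z α β) := fun i => p1 (bet i.1) * p2 (bet i.2)
  have hw : LinearIndependent ℂ w := by
    have h := (hind.tmul_of_isDomain hind).map' K (LinearMap.ker_eq_bot.2 hKb.1)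
    exact h
  -- degrees
  let deg : Fin 3 → ℕ := ![0, 3, 3]
  have hdeg : ∀ i, ∃ pq : ℕ × ℕ, bet i ∈ 𝓗.piece (P α β) (deg i, pq) := by
    intro i
    fin_cases i
    · exact ⟨(0, 0), 𝓗.one_mem _⟩
    · exact ⟨(2, 1), ha⟩
    · exact ⟨(1, 2), hb⟩
  have hcomm : ∀ i j, p2 (bet i) * p1 (bet j) =
      (-1 : ℂ) ^ (deg i * deg j) • (p1 (bet j) * p2 (bet i)) := by
    intro i j
    obtain ⟨pq, h1⟩ := hdeg i
    obtain ⟨pq', h2⟩ := hdeg j
    exact 𝓗.comm (Z α β) (deg i, pq) (deg j, pq') _ _ (𝓗.pull_mem _ _ _ _ _ _ h1)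
      (𝓗.pull_mem _ _ _ _ _ _ h2)
  have hTw : ∀ i, T (w i) = (-1 : ℂ) ^ (deg i.1 * deg i.2) • w (i.2, i.1) := by
    intro i
    show T (p1 (bet i.1) * p2 (bet i.2)) = _
    rw [map_mul, eT1, eT2, hcomm]
  -- the invariants of `S`
  have hsp : ∀ x, S x = x → ∃ c : Fin 3 → ℂ, x = ∑ i, c i • bet i := by
    intro x hx
    have h := (hfix x).1 hx
    rw [Submodule.mem_span_insert] at h
    obtain ⟨c, z, hz, rfl⟩ := h
    obtain ⟨d, e, rfl⟩ := Submodule.mem_span_pair.1 hz
    refine ⟨![c, d, e], ?_⟩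
    rw [Fin.sum_univ_three]
    simp only [bet, Matrix.cons_val_zero, Matrix.cons_val_one, Matrix.cons_val_two,
      Matrix.head_cons, Matrix.tail_cons]
    rw [add_assoc]
  have hSa : S a = a := (hfix a).2 (Submodule.subset_span (by simp))
  have hSb : S b = b := (hfix b).2 (Submodule.subset_span (by simp))
  let M : Submodule ℂ (𝓗.H (Z α β)) := Submodule.span ℂ (Set.range w)
  have hM1 : ∀ x y, S x = x → S y = y → p1 x * p2 y ∈ M := by
    intro x y hx hy
    obtain ⟨c, rfl⟩ := hsp x hx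
    obtain ⟨d, rfl⟩ := hsp y hy
    rw [map_sum, map_sum, Finset.sum_mul_sum]
    refine Submodule.sum_mem _ fun i _ => Submodule.sum_mem _ fun j _ => ?_
    rw [map_smul, map_smul, smul_mul_smul_comm]
    exact Submodule.smul_mem _ _ (Submodule.subset_span ⟨(i, j), rfl⟩)
  have hM2 : ∀ t, (K t + S1 (K t)) + S2 (K t + S1 (K t)) ∈ M := by
    intro t
    induction t using TensorProduct.induction_on with
    | zero => simp
    | tmul x y =>
      have e : (K (x ⊗ₜ[ℂ] y) + S1 (K (x ⊗ₜ[ℂ] y))) +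
          S2 (K (x ⊗ₜ[ℂ] y) + S1 (K (x ⊗ₜ[ℂ] y))) = p1 (x + S x) * p2 (y + S y) := by
        rw [hKt, map_mul, e11, e12, map_add, map_mul, map_mul, e21, e21, e22, map_add, map_add]
        noncomm_ring
      rw [e]
      refine hM1 _ _ ?_ ?_
      · rw [map_add, eSS, add_comm]
      · rw [map_add, eSS, add_comm]
    | add x y hx hy =>
      have e : (K (x + y) + S1 (K (x + y))) + S2 (K (x + y) + S1 (K (x + y))) =
          ((K x + S1 (K x)) + S2 (K x + S1 (K x))) +
          ((K y + S1 (K y)) + S2 (K y + S1 (K y))) := by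
        simp only [map_add]
        abel
      rw [e]
      exact M.add_mem hx hy
  have hM3 : ∀ ω, S1 ω = ω → S2 ω = ω → ω ∈ M := by
    intro ω h1 h2
    obtain ⟨t, rfl⟩ := hKb.2 ω
    have h := hM2 t
    rw [h1, map_add, h2] at h
    have h4 : (4 : ℂ) • K t ∈ M := by
      have e : (4 : ℂ) • K t = K t + K t + (K t + K t) := by
        rw [show (4 : ℂ) = 1 + 1 + (1 + 1) by norm_num, add_smul, add_smul, one_smul]
      rw [e]
      exact h
    have h5 := M.smul_mem (4 : ℂ)⁻¹ h4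
    rwa [smul_smul, inv_mul_cancel₀ (by norm_num), one_smul] at h5
  -- the classes
  have w00 : w (0, 0) = 1 := by
    show p1 1 * p2 1 = 1
    rw [map_one, map_one, mul_one]
  have w10 : w (1, 0) = p1 a := by
    show p1 a * p2 1 = p1 a
    rw [map_one, mul_one]
  have w20 : w (2, 0) = p1 b := by
    show p1 b * p2 1 = p1 b
    rw [map_one, mul_one]
  have w01 : w (0, 1) = p2 a := by
    show p1 1 * p2 a = p2 a
    rw [map_one, one_mul]
  have w02 : w (0, 2) = p2 b := by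
    show p1 1 * p2 b = p2 b
    rw [map_one, one_mul]
  have hAB : (p1 a + p2 a) * (p1 b + p2 b) = w (1, 2) - w (2, 1) := by
    have h1 : p2 a * p1 b = - w (2, 1) := by
      have h := hcomm 1 2
      have e : ((-1 : ℂ) ^ (deg 1 * deg 2)) = -1 := by
        show (-1 : ℂ) ^ (3 * 3) = -1
        norm_num
      rw [e, neg_one_smul] at h
      exact h
    have h2 : p1 a * p1 b = 0 := by rw [← map_mul, hab, map_zero]
    have h3 : p2 a * p2 b = 0 := by rw [← map_mul, hab, map_zero]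
    rw [add_mul, mul_add, mul_add, h1, h2, h3, zero_add, add_zero, sub_eq_add_neg]
    rfl
  have hA : S1 (p1 a + p2 a) = p1 a + p2 a ∧ S2 (p1 a + p2 a) = p1 a + p2 a ∧
      T (p1 a + p2 a) = p1 a + p2 a :=
    ⟨by rw [map_add, e11, e12, hSa], by rw [map_add, e21, e22, hSa],
      by rw [map_add, eT1, eT2, add_comm]⟩
  have hB : S1 (p1 b + p2 b) = p1 b + p2 b ∧ S2 (p1 b + p2 b) = p1 b + p2 b ∧
      T (p1 b + p2 b) = p1 b + p2 b :=
    ⟨by rw [map_add, e11, e12, hSb], by rw [map_add, e21, e22, hSb],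
      by rw [map_add, eT1, eT2, add_comm]⟩
  have key : ∀ x : 𝓗.H (Z α β), (S1 x = x ∧ S2 x = x ∧ T x = x) ↔
      x ∈ Submodule.span ℂ ({1, p1 a + p2 a, p1 b + p2 b, (p1 a + p2 a) * (p1 b + p2 b)} :
        Set (𝓗.H (Z α β))) := by
    intro x
    constructor
    · rintro ⟨hx1, hx2, hxT⟩
      have hxM : x ∈ Submodule.span ℂ (Set.range w) := hM3 x hx1 hx2
      obtain ⟨c, hc⟩ := (Submodule.mem_span_range_iff_exists_fun ℂ).1 hxM
      have hTx : T x = ∑ i, (c (i.2, i.1) * (-1 : ℂ) ^ (deg i.2 * deg i.1)) • w i := by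
        rw [← hc, map_sum, ← Equiv.sum_comp (Equiv.prodComm (Fin 3) (Fin 3))]
        refine Finset.sum_congr rfl fun i _ => ?_
        rw [map_smul, hTw, smul_smul]
        rfl
      have h0 : ∑ i, (c i - c (i.2, i.1) * (-1 : ℂ) ^ (deg i.2 * deg i.1)) • w i = 0 := by
        simp only [sub_smul]
        rw [Finset.sum_sub_distrib, ← hTx, hc, hxT, sub_self]
      have h1 := Fintype.linearIndependent_iff.1 hw _ h0
      have d00 : deg 0 = 0 := rfl
      have d1 : deg 1 = 3 := rfl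
      have d2 : deg 2 = 3 := rfl
      have c10 := h1 (1, 0)
      have c20 := h1 (2, 0)
      have c11 := h1 (1, 1)
      have c22 := h1 (2, 2)
      have c21 := h1 (2, 1)
      simp only [d00, d1, d2] at c10 c20 c11 c22 c21
      norm_num at c10 c20 c11 c22 c21
      have c10' : c (1, 0) = c (0, 1) := by linear_combination c10
      have c20' : c (2, 0) = c (0, 2) := by linear_combination c20
      have c21' : c (2, 1) = - c (1, 2) := by linear_combination c21
      have hxe : x = c (0, 0) • 1 + c (0, 1) • (p1 a + p2 a) + c (0, 2) • (p1 b + p2 b) +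
          c (1, 2) • ((p1 a + p2 a) * (p1 b + p2 b)) := by
        rw [hAB, ← hc, Fintype.sum_prod_type]
        simp only [Fin.sum_univ_three]
        rw [c10', c20', c11, c22, c21', w00, w10, w20, w01, w02]
        module
      rw [hxe]
      refine Submodule.add_mem _ (Submodule.add_mem _ (Submodule.add_mem _ ?_ ?_) ?_) ?_
      · exact Submodule.smul_mem _ _ (Submodule.subset_span (by simp))
      · exact Submodule.smul_mem _ _ (Submodule.subset_span (by simp))
      · exact Submodule.smul_mem _ _ (Submodule.subset_span (by simp))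
      · exact Submodule.smul_mem _ _ (Submodule.subset_span (by simp))
    · intro hx
      induction hx using Submodule.span_induction with
      | mem x hx =>
        rcases hx with rfl | rfl | rfl | rfl
        · exact ⟨map_one S1, map_one S2, map_one T⟩
        · exact hA
        · exact hB
        · exact ⟨by rw [map_mul, hA.1, hB.1], by rw [map_mul, hA.2.1, hB.2.1],
            by rw [map_mul, hA.2.2, hB.2.2]⟩
      | zero => exact ⟨map_zero S1, map_zero S2, map_zero T⟩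
      | add x y _ _ hx hy =>
        exact ⟨by rw [map_add, hx.1, hy.1], by rw [map_add, hx.2.1, hy.2.1],
            by rw [map_add, hx.2.2, hy.2.2]⟩
      | smul c x _ hx =>
        exact ⟨by rw [map_smul, hx.1], by rw [map_smul, hx.2.1], by rw [map_smul, hx.2.2]⟩
  refine ⟨p1 a + p2 a, p1 b + p2 b, ?_, ?_, ?_, ?_⟩
  · exact Submodule.add_mem _ (𝓗.pull_mem _ _ _ _ _ _ ha) (𝓗.pull_mem _ _ _ _ _ _ ha)
  · exact Submodule.add_mem _ (𝓗.pull_mem _ _ _ _ _ _ hb) (𝓗.pull_mem _ _ _ _ _ _ hb)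
  · rw [hAB]
    intro h
    have := hw.injective (sub_eq_zero.1 h)
    simp at this
  · exact Submodule.ext fun x => (mem_coh_iff 𝓗 α β x).trans (key x)

end Pool.Agent.D0H90.HT
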