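import Pool.Agent.D0H90.HT.Defs

set_option autoImplicit false

/-! Statements of the modules of project HT (MP_2059f1_ag). -/

namespace Pool.Agent.D0H90.HT

/-- LN. Path lifting for `ℂ^N → ℂ^N / ±`: the symmetric matrices `v_i v_j` determine `v` up to sign.
Proof: `F = {t | m t = 0}` is closed; on each component `J` (an interval, simply connected and locally
path connected) of the complement lift through the covering `ℂ^N ∖ 0 → (ℂ^N ∖ 0)/±`
(`IsCoveringMapOn.existsUnique_continuousMap_lifts`, `isCoveringMapOn_quotientMk_of_properlyDiscontinuousSMul`),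
put `v = 0` on `F`; continuity at the points of `F` is clear since `|v_i|^2 = |m i i|`.
(The map `(ℂ^N)/± → matrices` is a homeomorphism onto its closed image: it is proper; or show
directly that `v ↦ (v_i v_j)` restricted to `v ≠ 0` is a covering onto its image / choose the sign
with the square root of `m i i` near a point with `m i i ≠ 0`.) -/
def S_LN : Prop := ∀ (N : ℕ) (m : unitInterval → Fin N → Fin N → ℂ), Continuous m →
  (∀ t, ∃ v : Fin N → ℂ, ∀ i j, m t i j = v i * v j) →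
  ∃ v : unitInterval → Fin N → ℂ, Continuous v ∧ ∀ t i j, m t i j = v t i * v t j

/-- HN. The mixed Hodge numbers if the cohomology is spanned by `1, a, b, a b`. -/
def S_HN : Prop := ∀ (𝓗 : MixedHodgeTheory) (V : QuotVar) (a b : 𝓗.H V.S),
  a ∈ 𝓗.piece V.S (3, 2, 1) → b ∈ 𝓗.piece V.S (3, 1, 2) → a * b ≠ 0 →
  Subalgebra.toSubmodule (coh 𝓗 V) = Submodule.span ℂ {1, a, b, a * b} →
  ∀ k p q, hodgeNumber 𝓗 V k p q =
    if (k, p, q) = (0, 0, 0) ∨ (k, p, q) = (3, 2, 1) ∨ (k, p, q) = (3, 1, 2) ∨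
      (k, p, q) = (6, 3, 3) then 1 else 0

/-- MOD. The minimal model if the cohomology is spanned by `1, a, b, a b`. Proof: choose cocycles
`x, y` of degree 3 with `ρ x = a`, `ρ y = b` (take the components of degree 3 of arbitrary cocycles;
the components of a cocycle are cocycles, and `ρ` is graded), `φ = ExteriorAlgebra.lift` of
`v ↦ v 0 • x + v 1 • y`, whose square is `0` by `Cdga.comm` in odd degree; `1, a, b, ab` are linearly
independent, and `ExteriorAlgebra ℂ (Fin 2 → ℂ)` is spanned by `1, ι e0, ι e1, ι e0 * ι e1`. -/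
def S_MOD : Prop := ∀ (𝓗 : MixedHodgeTheory) (V : QuotVar) (a b : 𝓗.H V.S),
  a ∈ 𝓗.piece V.S (3, 2, 1) → b ∈ 𝓗.piece V.S (3, 1, 2) → a * b ≠ 0 →
  Subalgebra.toSubmodule (coh 𝓗 V) = Submodule.span ℂ {1, a, b, a * b} →
  ∀ A : Cdga, HasCohomology A 𝓗 V → IsModel A 3 2

/-- INVP. The invariants of `σ` in the cohomology of `P = curve × quadric`: they are spanned by `1`
and two classes `a, b` of the types `(2,1)` and `(1,2)` in degree 3; products of the latter are 0.
Proof: by `kunneth`, `elliptic`, `sphere` the classes `1, e₁, e₂, u, e₁u, e₂u` (pullbacks) form a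
basis of `H P`, on which `σ` acts by the signs `1, -, -, -, 1, 1`
(`fst ∘ σ = inv ∘ fst`, `snd ∘ σ = refl ∘ snd`, `pull_comp`); products of degree 6 are in
`⨆ piece (6, ..) = 0`. -/
def S_INVP : Prop := ∀ (α β : ℂ), 4 * α ^ 3 + 27 * β ^ 2 ≠ 0 →
  ∀ (𝓗 : MixedHodgeTheory) (hσ : IsRegular (P α β) (P α β) (σ α β)),
  ∃ a b : 𝓗.H (P α β), a ∈ 𝓗.piece (P α β) (3, 2, 1) ∧ b ∈ 𝓗.piece (P α β) (3, 1, 2) ∧
    LinearIndependent ℂ ![1, a, b] ∧ a * a = 0 ∧ a * b = 0 ∧ b * a = 0 ∧ b * b = 0 ∧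
    ∀ x, 𝓗.pull (P α β) (P α β) (σ α β) hσ x = x ↔ x ∈ Submodule.span ℂ {1, a, b}

end Pool.Agent.D0H90.HT
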