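import Pool.Agent.D0H90.HT.Stm
import Pool.Agent.D0H90.HT.Defs2

set_option autoImplicit false

/-! Statements of the modules of project HT (MP_2059f1_ag), second part. -/

namespace Pool.Agent.D0H90.HT

/-- The quotient map `Z → X`. -/
def proj (α β : ℂ) (z : (Z α β).Pts) : (Xvar α β).Points :=
  Quotient.mk (MulAction.orbitRel (Γ α β) (Z α β).Pts) z

theorem continuous_proj (α β : ℂ) : Continuous (proj α β) :=
  continuous_quotient_mk' (s := MulAction.orbitRel (Γ α β) (Z α β).Pts)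

theorem proj_surjective (α β : ℂ) : Function.Surjective (proj α β) :=
  fun x => Quotient.exists_rep (s := MulAction.orbitRel (Γ α β) (Z α β).Pts) x

theorem proj_eq_iff (α β : ℂ) (z z' : (Z α β).Pts) :
    proj α β z = proj α β z' ↔ ∃ g ∈ Γ α β, g z' = z := by
  have h : proj α β z = proj α β z' ↔ (MulAction.orbitRel (Γ α β) (Z α β).Pts) z z' :=
    Quotient.eq (r := MulAction.orbitRel (Γ α β) (Z α β).Pts)
  rw [h, MulAction.orbitRel_apply, MulAction.mem_orbit_iff]
  constructor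
  · rintro ⟨g, hg⟩
    exact ⟨g.1, g.2, hg⟩
  · rintro ⟨g, hg, h⟩
    exact ⟨⟨g, hg⟩, h⟩

/-- A continuous map out of `X`. -/
theorem continuous_desc {α β : ℂ} {T : Type} [TopologicalSpace T] {f : (Xvar α β).Points → T}
    (h : Continuous fun z => f (proj α β z)) : Continuous f :=
  (isQuotientMap_quotient_mk' (s := MulAction.orbitRel (Γ α β) (Z α β).Pts)).continuous_iff.2 h

/-- LIFT. Path lifting for `Z → X`. Proof: write `z = (p, q)`, `p = (x, y, a, b, c)` and
`f p = (x, b, c, y a)`. The functions `s = f p + f q` and `m i j = (f p - f q) i * (f p - f q) j`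
are `Γ`-invariant, hence continuous on `X`. LN with `N = 4` gives `v` with `m = v v^T` along the
path; `F₁ = (s + v) / 2` and `F₂ = (s - v) / 2` are `f p, f q` in some order for every
representative `(p, q)`. With `F₁ = (x, b, c, w)`, `w ^ 2 = (x ^ 3 + α x + β) (1 - b ^ 2 - c ^ 2)`
LN with `N = 2` for the matrix `(x ^ 3 + α x + β, w; w, 1 - b ^ 2 - c ^ 2)` gives continuous `y, a`;
the same for `F₂`. -/
def S_LIFT : Prop := ∀ (α β : ℂ) (γ : C(unitInterval, (Xvar α β).Points)),
  ∃ z : C(unitInterval, (Z α β).Pts), ∀ t, proj α β (z t) = γ t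

/-- PC. `Z` is path connected, and moreover `P` is: a point `(x, y)` of the curve is joined to
`(x₀, 0)`, `x₀` a root of the cubic, by a continuous square root (LN, `N = 1`, sign adjusted at the
starting point) of `g (t) = cubic (x + t (x₀ - x))`; the same for the quadric: `(b, c)` is joined to
`(1, 0)` by a segment, `a` is a continuous square root of `1 - b ^ 2 - c ^ 2`. -/
def S_PC : Prop := ∀ α β : ℂ, PathConnectedSpace (Z α β).Pts

/-- SC. `X` is simply connected. Base point: the image of `z₀ = (e, o, e, o)`, `e = (x₀, 0)`,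
`o = (0, 1, 0)`; the fibre of `proj` over it is `{z₀}`, since `z₀` is a fixed point of `Γ`. By LIFT a
loop at `proj z₀` is `proj ∘ (γ₁, γ₂, γ₃, γ₄)` with loops `γ₁, γ₃` in the curve, `γ₂, γ₄` in the
quadric. The map `(t₁, t₂, t₃, t₄) ↦ proj (γ₁ t₁, γ₂ t₂, γ₃ t₃, γ₄ t₄)` on the cube shows that the
loop is homotopic to the product of the four loops with one moving component. The loop
`proj (γ₁ t, o, e, o)` is the image of the loop `x (γ₁ t)` in `ℂ` under the continuous map
`ℂ → X`, `x ↦ proj ((x, √(cubic x)), o, e, o)` (well defined and continuous since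
`σ (x, y, o) = (x, -y, o)` and since the `x`-coordinate of the curve is a quotient map, for example
open: or use LN to see continuity along paths), hence null-homotopic; the loop `proj (e, γ₂ t, e, o)`
is the image of a loop in `ℂ ^ 2` in the same way. -/
def S_SC : Prop := ∀ α β : ℂ, SimplyConnectedSpace (Xvar α β).Points

/-- INV. The invariants in `H Z`. With `a₀, b₀` from INVP the classes are
`a = pr₁^* a₀ + pr₂^* a₀`, `b = pr₁^* b₀ + pr₂^* b₀`. -/
def S_INV : Prop := ∀ (α β : ℂ), 4 * α ^ 3 + 27 * β ^ 2 ≠ 0 → ∀ 𝓗 : MixedHodgeTheory,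
  ∃ a b : 𝓗.H (Z α β), a ∈ 𝓗.piece (Z α β) (3, 2, 1) ∧ b ∈ 𝓗.piece (Z α β) (3, 1, 2) ∧
    a * b ≠ 0 ∧
    Subalgebra.toSubmodule (coh 𝓗 (Xvar α β)) = Submodule.span ℂ {1, a, b, a * b}

/-- The final theorem. -/
def Final : Prop := ∀ (α β : ℂ), 4 * α ^ 3 + 27 * β ^ 2 ≠ 0 →
  SimplyConnectedSpace (Xvar α β).Points ∧ ∀ 𝓗 : MixedHodgeTheory,
    (∀ k p q, hodgeNumber 𝓗 (Xvar α β) k p q =
      if (k, p, q) = (0, 0, 0) ∨ (k, p, q) = (3, 2, 1) ∨ (k, p, q) = (3, 1, 2) ∨
        (k, p, q) = (6, 3, 3) then 1 else 0) ∧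
    ∀ A : Cdga, HasCohomology A 𝓗 (Xvar α β) → IsModel A 3 2

theorem final (hHN : S_HN) (hMOD : S_MOD) (hSC : S_SC) (hINV : S_INV) : Final := by
  intro α β h
  refine ⟨hSC α β, fun 𝓗 => ?_⟩
  obtain ⟨a, b, ha, hb, hab, hspan⟩ := hINV α β h 𝓗
  exact ⟨hHN 𝓗 (Xvar α β) a b ha hb hab hspan, hMOD 𝓗 (Xvar α β) a b ha hb hab hspan⟩

end Pool.Agent.D0H90.HT
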